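import Mathlib
import Pool.Agent.Q273.AD.TrK

/-!
# The abc conjecture near almost every adele of a number field

`K` is a number field of degree `d`. For `x ∈ K`, `x ≠ 0, 1`, let `h(x)` be the height,
`N(x) = cond(x) + cond(1/x) + cond(x - 1)` and `ρ(x) = N(x) / h(x)`. The target is an integral adelic
point `u = (ξ, η)`, that is, `ξ = (ξ_w)_w ∈ K ⊗ ℝ` and `η = (η_v)_v` in the product over all primes `v`
of the rings `O_v`, and `m_V(x)` is the sum of the normalised local proximities
`log max (1, 1 / |u_v - x|_v)` over all infinite places and over the primes in the finite set `V`.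

For almost every `u` the inequality `m_V ≤ (F(ρ) + ε) h + C` holds for ALL `x`, where `F` is an explicit
function with `F(ρ) ≤ 4 ρ / 7` for `ρ ≤ 1`, `F(1) = 20/37` and `F(ρ) = ρ - 1` for `ρ ≥ 2`. So every `x` with
`m_V(x) ≥ τ h(x)`, `τ > 0`, satisfies the inequality of Q1 with a constant `κ` which depends on `τ` only
up to finitely many `x`, with `κ = 1` for `τ > 20/37`; if `τ > 1`, then even
`h(x) + m_V(x) ≤ N(x) + ε h(x) + C`, and this is the only restriction: all distributions of the
proximities and of the conductors which it permits occur.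
-/

set_option autoImplicit false

open MeasureTheory NumberField IsDedekindDomain NumberField.mixedEmbedding

namespace Pool.Agent.Results.MP_f5a5f7_nt.AlmostEveryAdele

variable {K : Type} [Field K] [NumberField K]

/-- the absolute logarithmic Weil height `h(x)` -/
noncomputable def height (x : K) : ℝ :=
  (1 / (Module.finrank ℚ K : ℝ)) *
    ((∑ w : InfinitePlace K, (w.mult : ℝ) * Real.log (max 1 (w x))) +
      ∑ᶠ v : HeightOneSpectrum (RingOfIntegers K), Real.log (max 1 (FinitePlace.mk v x)))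

/-- the conductor `cond(x)`: the sum of `log N(v) / [K : ℚ]` over the primes `v` at which `x` has a
positive valuation -/
noncomputable def cond (x : K) : ℝ :=
  (1 / (Module.finrank ℚ K : ℝ)) *
    (∑ᶠ v : HeightOneSpectrum (RingOfIntegers K),
      (if FinitePlace.mk v x < 1 then Real.log (Ideal.absNorm v.asIdeal : ℝ) else 0))

/-- `N(x) = cond(x) + cond(1/x) + cond(x - 1)` -/
noncomputable def N (x : K) : ℝ := cond x + cond x⁻¹ + cond (x - 1)

/-- the group of the integral finite adelic points: the product over all primes `v` of the rings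
`O_v`, with the product topology -/
abbrev FinAd (K : Type) [Field K] [NumberField K] : Type :=
  (v : HeightOneSpectrum (𝓞 K)) → v.adicCompletionIntegers K

/-- the proximity function at the infinite place `w`:
`[K_w : ℝ] / [K : ℚ] log max (1, 1 / |ξ_w - x|_w)` -/
noncomputable def mw (ξ : mixedSpace K) (w : InfinitePlace K) (x : K) : ℝ :=
  (w.mult : ℝ) * Real.log (max 1 (normAtPlace w (ξ - mixedEmbedding K x))⁻¹) /
    (Module.finrank ℚ K : ℝ)

/-- the proximity function at the prime `v`: `log max (1, 1 / |η_v - x|_v) / [K : ℚ]`, with the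
absolute value for which a uniformiser has absolute value `1 / N(v)` -/
noncomputable def mv (η : FinAd K) (v : HeightOneSpectrum (𝓞 K)) (x : K) : ℝ :=
  Real.log (max 1 ‖(η v : v.adicCompletion K) - FinitePlace.embedding v x‖⁻¹) /
    (Module.finrank ℚ K : ℝ)

/-- the proximity function at all infinite places and at the primes in `V` -/
noncomputable def prox (V : Finset (HeightOneSpectrum (𝓞 K))) (u : mixedSpace K × FinAd K)
    (x : K) : ℝ :=
  ∑ w : InfinitePlace K, mw u.1 w x + ∑ v ∈ V, mv u.2 v x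

/-- a continuous, decreasing, piecewise linear function on `[0, 2]` -/
noncomputable def e (t : ℝ) : ℝ :=
  if t ≤ 1 then 2 - t
  else if t ≤ 4 / 3 then 1
  else if t ≤ 17 / 12 then 7 / 3 - t
  else if t ≤ 3 / 2 then 13 / 8 - t / 2
  else if t ≤ 17 / 10 then 29 / 16 - 5 * t / 8
  else if t ≤ 7 / 4 then 3 / 4
  else if t ≤ 9 / 5 then 5 / 2 - t
  else if t ≤ 13 / 7 then 8 / 5 - t / 2
  else if t ≤ 19 / 10 then 47 / 70
  else 2 - 93 * t / 133

/-- the exponent, an increasing function with `F(ρ) = ρ - 1` for `ρ ≥ 2` -/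
noncomputable def F (ρ : ℝ) : ℝ := if ρ ≤ 1 then min (4 * ρ / 7) (20 / 37) else e (3 - ρ)

open scoped Classical in
/-- **The metric law for the elements of a number field near adeles.** Let `μ` be a finite translation
invariant Borel measure on the compact group `FinAd K` (a multiple of Haar measure). For almost every
`u = (ξ, η)` with respect to the product of Lebesgue measure and `μ`, for all finite sets `V` of primes:
(1) for every `ε > 0` there is `C` such that all `x ∈ K`, `x ≠ 0, 1`, satisfy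
`m_V ≤ (F(ρ) + ε) h + C`, where `ρ = N / h`;
(2) if `τ_w ≥ 0` (all infinite `w`), `σ_v ≥ 0` (all `v ∈ V`) and `δ_i ≥ 0` satisfy `∑ δ_i ≤ 1` and
`∑ τ_w + ∑ σ_v + ∑ δ_i ≤ 2`, then there are `x ∈ K` with `h(x) → ∞`, `m_w / h → τ_w` for every infinite
place `w`, `m_v / h → σ_v` for every `v ∈ V`, `cond(x) / h → 1 - δ_0`, `cond(x - 1) / h → 1 - δ_1` and
`cond(1/x) / h → 1 - δ_2`. -/
theorem result (K : Type) [Field K] [NumberField K] [MeasurableSpace (FinAd K)]
    [BorelSpace (FinAd K)] (μ : Measure (FinAd K)) [IsFiniteMeasure μ] [μ.IsAddLeftInvariant] :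
    ∀ᵐ u : mixedSpace K × FinAd K ∂(volume.prod μ), ∀ V : Finset (HeightOneSpectrum (𝓞 K)),
      (∀ ε : ℝ, 0 < ε → ∃ C : ℝ, ∀ x : K, x ≠ 0 → x ≠ 1 →
        prox V u x ≤ (F (N x / height x) + ε) * height x + C) ∧
      ∀ (τ : InfinitePlace K → ℝ) (σ : HeightOneSpectrum (𝓞 K) → ℝ) (δ : Fin 3 → ℝ),
        (∀ w, 0 ≤ τ w) → (∀ v, 0 ≤ σ v) → (∀ i, 0 ≤ δ i) → ∑ i, δ i ≤ 1 →
        ∑ w, τ w + ∑ v ∈ V, σ v + ∑ i, δ i ≤ 2 → ∀ ε : ℝ, 0 < ε → ∀ B : ℝ,
        ∃ x : K, x ≠ 0 ∧ x ≠ 1 ∧ B ≤ height x ∧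
          (∀ w, |mw u.1 w x / height x - τ w| ≤ ε) ∧
          (∀ v ∈ V, |mv u.2 v x / height x - σ v| ≤ ε) ∧
          |cond x / height x - (1 - δ 0)| ≤ ε ∧
          |cond (x - 1) / height x - (1 - δ 1)| ≤ ε ∧
          |cond x⁻¹ / height x - (1 - δ 2)| ≤ ε := by
  have hd : (0 : ℝ) < (Module.finrank ℚ K : ℝ) := Q273.AD.dg_pos
  filter_upwards [Q273.AD.trk (K := K) μ] with u hu
  intro V
  obtain ⟨h1, h3⟩ := hu V
  have eh : ∀ x : K, Q273.MV.hh x = (Module.finrank ℚ K : ℝ) * height x := Q273.AD.hh_height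
  have ec : ∀ x : K, Q273.AD.cnd x = cond x := fun _ => rfl
  have eS : ∀ x : K, Q273.AD.S3 x = (Module.finrank ℚ K : ℝ) * N x := fun _ => rfl
  have ew : ∀ (w : InfinitePlace K) (x : K), (w.mult : ℝ) *
      Q273.AD.pw (fun _ : Fin 1 => u.1) w (fun _ => x) =
        (Module.finrank ℚ K : ℝ) * mw u.1 w x := by
    intro w x
    unfold mw Q273.AD.pw
    rw [ciSup_const, mul_div_cancel₀ _ hd.ne']
  have ev : ∀ (v : HeightOneSpectrum (𝓞 K)) (x : K),
      Q273.AD.pv v (Q273.AD.Ph1 u.2 v) (fun _ => x) = (Module.finrank ℚ K : ℝ) * mv u.2 v x := by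
    intro v x
    unfold mv
    rw [mul_div_cancel₀ _ hd.ne']
    show Real.log (max 1 (⨆ _ : Fin 1, ‖(u.2 v : v.adicCompletion K) -
      FinitePlace.embedding v x‖)⁻¹) = _
    rw [ciSup_const]
  have ep : ∀ x : K, Q273.AD.prA V ((fun _ => u.1, Q273.AD.Ph1 u.2) :
      (Fin 1 → mixedSpace K) × Q273.AD.FinAd K 1) (fun _ => x) =
        (Module.finrank ℚ K : ℝ) * prox V u x := by
    intro x
    unfold prox Q273.AD.prA
    rw [Q273.AD.prox_eq, mul_add, Finset.mul_sum, Finset.mul_sum]
    congr 1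
    · exact Finset.sum_congr rfl fun w _ => ew w x
    · exact Finset.sum_congr rfl fun v _ => ev v x
  have eF : ∀ ρ : ℝ, Q273.AD.FK ρ = F ρ := by
    intro ρ
    unfold Q273.AD.FK F
    by_cases h : ρ ≤ 1
    · rw [if_pos h, if_pos h]
    · rw [if_neg h, if_neg h]
      push Not at h
      unfold e Pool.Agent.Results.MP_4d5ce1_nt.ExceptionalSetExponents.expoThree
      simp only [if_pos (show 3 - ρ ≤ 8512 / 4185 by linarith)]
  refine ⟨fun ε hε => ?_, fun τ σ δ hτ hσ hδ hΔ hsum ε hε B => ?_⟩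
  · obtain ⟨C, hC⟩ := h1 ε hε
    refine ⟨C / (Module.finrank ℚ K : ℝ), fun x h0 h1 => ?_⟩
    have g1 := hC x h0 h1
    rw [ep, eS, eh, mul_div_mul_left _ _ hd.ne', eF] at g1
    have e1 : (Module.finrank ℚ K : ℝ) * (C / (Module.finrank ℚ K : ℝ)) = C := by
      field_simp
    refine le_of_mul_le_mul_left ?_ hd
    rw [mul_add, e1]
    linarith
  · obtain ⟨x, h0, h1, hB, g1, g2, g3, g4, g5⟩ := h3 τ σ δ hτ hσ hδ hΔ hsum ε hε
      ((Module.finrank ℚ K : ℝ) * max B 1)
    rw [eh] at hB
    have hB' : max B 1 ≤ height x := le_of_mul_le_mul_left hB hd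
    have hH : 0 < height x := lt_of_lt_of_le one_pos ((le_max_right _ _).trans hB')
    have key : ∀ A t : ℝ, |(Module.finrank ℚ K : ℝ) * A - t * ((Module.finrank ℚ K : ℝ) *
        height x)| ≤ ε * ((Module.finrank ℚ K : ℝ) * height x) → |A / height x - t| ≤ ε := by
      intro A t h
      have e1 : (Module.finrank ℚ K : ℝ) * A - t * ((Module.finrank ℚ K : ℝ) * height x) =
          (Module.finrank ℚ K : ℝ) * (height x * (A / height x - t)) := by
        field_simp
      rw [e1, abs_mul, abs_mul, abs_of_pos hd, abs_of_pos hH] at h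
      have h4 : (Module.finrank ℚ K : ℝ) * (height x * |A / height x - t|) ≤
          (Module.finrank ℚ K : ℝ) * (height x * ε) := by linarith
      exact le_of_mul_le_mul_left (le_of_mul_le_mul_left h4 hd) hH
    refine ⟨x, h0, h1, (le_max_left _ _).trans hB', fun w => key _ _ ?_, fun v hv => key _ _ ?_,
      key _ _ ?_, key _ _ ?_, key _ _ ?_⟩
    · rw [← ew, ← eh]
      exact g1 w
    · rw [← ev, ← eh]
      exact g2 v hv
    · rw [← eh]
      exact g3
    · rw [← eh]
      exact g4
    · rw [← eh]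
      exact g5

end Pool.Agent.Results.MP_f5a5f7_nt.AlmostEveryAdele
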