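import Mathlib
import Pool.Agent.Q273.AD.AbcM2

/-!
# Hausdorff dimensions of the targets approximated by elements with small conductors

`K` is a number field of degree `d`. For `x ∈ K`, `x ≠ 0, 1`, let `h(x)` be the height and
`N(x) = cond(x) + cond(1/x) + cond(x - 1)`. The theorem gives the Hausdorff dimension of the set of the
`ξ ∈ K ⊗ ℝ` which have approximations `x` of order `τ` whose three conductors are at most prescribed
multiples of the height (with sum at least `2 h`), and, in any metric space which contains an image of `K`,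
an upper bound for the dimension of the set of the `ξ` which have approximations of order `τ` with
`N(x) ≤ lam h(x) + c`, that is, exceptions to the inequality of the question with the constant `κ = 1 / lam`.
-/

set_option autoImplicit false

open MeasureTheory NumberField IsDedekindDomain NumberField.mixedEmbedding

namespace Pool.Agent.Results.MP_f5a5f7_nt.HausdorffDimensions

variable {K : Type} [Field K] [NumberField K]

/-- the absolute logarithmic Weil height `h(x)` -/
noncomputable def height (x : K) : ℝ :=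
  (1 / (Module.finrank ℚ K : ℝ)) *
    ((∑ w : InfinitePlace K, (w.mult : ℝ) * Real.log (max 1 (w x))) +
      ∑ᶠ v : HeightOneSpectrum (RingOfIntegers K), Real.log (max 1 (FinitePlace.mk v x)))

/-- the conductor `cond(x)`: the sum of `log N(v) / [K : ℚ]` over the primes `v` at which `x` has a
positive valuation -/
noncomputable def cond (x : K) : ℝ :=
  (1 / (Module.finrank ℚ K : ℝ)) *
    (∑ᶠ v : HeightOneSpectrum (RingOfIntegers K),
      (if FinitePlace.mk v x < 1 then Real.log (Ideal.absNorm v.asIdeal : ℝ) else 0))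

/-- a continuous, decreasing, piecewise linear function on `[0, 2]` -/
noncomputable def e (t : ℝ) : ℝ :=
  if t ≤ 1 then 2 - t
  else if t ≤ 4 / 3 then 1
  else if t ≤ 17 / 12 then 7 / 3 - t
  else if t ≤ 3 / 2 then 13 / 8 - t / 2
  else if t ≤ 17 / 10 then 29 / 16 - 5 * t / 8
  else if t ≤ 7 / 4 then 3 / 4
  else if t ≤ 9 / 5 then 5 / 2 - t
  else if t ≤ 13 / 7 then 8 / 5 - t / 2
  else if t ≤ 19 / 10 then 47 / 70
  else 2 - 93 * t / 133

/-- the exponent, an increasing function with `F(t) ≤ 4 t / 7` for `t ≤ 1`, `F(1) = 20/37` and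
`F(t) = t - 1` for `t ≥ 2` -/
noncomputable def F (t : ℝ) : ℝ := if t ≤ 1 then min (4 * t / 7) (20 / 37) else e (3 - t)

open scoped Classical in
/-- the targets with approximations of order `τ`, of unbounded height, for which
`cond(x) ≤ (θ_0 + o(1)) h(x)`, `cond(x - 1) ≤ (θ_1 + o(1)) h(x)`, `cond(1/x) ≤ (θ_2 + o(1)) h(x)` -/
def Approximable (K : Type) [Field K] [NumberField K] (τ : ℝ) (θ : Fin 3 → ℝ) :
    Set (mixedSpace K) :=
  {ξ | ∀ ε : ℝ, 0 < ε → ∀ B : ℝ, ∃ x : K, x ≠ 0 ∧ x ≠ 1 ∧ B ≤ height x ∧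
    ‖ξ - mixedEmbedding K x‖ ≤ Real.exp (-((τ - ε) * height x)) ∧
    cond x ≤ (θ 0 + ε) * height x ∧ cond (x - 1) ≤ (θ 1 + ε) * height x ∧
    cond x⁻¹ ≤ (θ 2 + ε) * height x}

/-- the points `ξ` of the metric space `Y` with approximations `φ(x)` of order `τ`, `x` of unbounded height,
with `cond(x) + cond(1/x) + cond(x - 1) ≤ lam h(x) + c` for some `c` -/
def SmallConductors {Y : Type} [MetricSpace Y] (φ : K → Y) (lam τ : ℝ) : Set Y :=
  {ξ | ∃ c : ℝ, ∀ B : ℝ, ∃ x : K, x ≠ 0 ∧ x ≠ 1 ∧ B ≤ height x ∧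
    dist ξ (φ x) ≤ Real.exp (c - τ * height x) ∧
    cond x + cond x⁻¹ + cond (x - 1) ≤ lam * height x + c}

private lemma hd : (0 : ℝ) < (Module.finrank ℚ K : ℝ) := Q273.AD.dg_pos

private lemma hd1 : (1 : ℝ) ≤ (Module.finrank ℚ K : ℝ) := Q273.AD.one_le_dg

private lemma eh (x : K) : Q273.MV.hh x = (Module.finrank ℚ K : ℝ) * height x :=
  Q273.AD.hh_height x

private lemma eF (t : ℝ) : Q273.AD.FK t = F t := by
  unfold Q273.AD.FK F
  by_cases h : t ≤ 1
  · rw [if_pos h, if_pos h]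
  · rw [if_neg h, if_neg h]
    push Not at h
    unfold e Pool.Agent.Results.MP_4d5ce1_nt.ExceptionalSetExponents.expoThree
    simp only [if_pos (show 3 - t ≤ 8512 / 4185 by linarith)]

private lemma loss_iff {x : K} (h0 : x ≠ 0) (h1 : x ≠ 1) (θ : Fin 3 → ℝ) (ε : ℝ) :
    (cond x ≤ (θ 0 + ε) * height x ∧ cond (x - 1) ≤ (θ 1 + ε) * height x ∧
      cond x⁻¹ ≤ (θ 2 + ε) * height x) ↔
    ∀ l, ((fun i => 1 - θ i) l - ε) * Q273.MV.hh x ≤ Q273.MV.sI ∅ (Q273.AD.al K l) x := by
  have hd := hd (K := K)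
  obtain ⟨e0, e1, e2, _, _⟩ := Q273.AD.losses h0 h1
  have k0 : Q273.MV.sI ∅ (Q273.AD.al K 0) x =
      (Module.finrank ℚ K : ℝ) * height x - (Module.finrank ℚ K : ℝ) * cond x := by
    have : Q273.MV.hh x - Q273.MV.sI ∅ (Q273.AD.al K 0) x =
      (Module.finrank ℚ K : ℝ) * cond x := e0
    rw [eh] at this
    linarith
  have k1 : Q273.MV.sI ∅ (Q273.AD.al K 1) x =
      (Module.finrank ℚ K : ℝ) * height x - (Module.finrank ℚ K : ℝ) * cond (x - 1) := by
    have : Q273.MV.hh x - Q273.MV.sI ∅ (Q273.AD.al K 1) x =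
      (Module.finrank ℚ K : ℝ) * cond (x - 1) := e1
    rw [eh] at this
    linarith
  have k2 : Q273.MV.sI ∅ (Q273.AD.al K 2) x =
      (Module.finrank ℚ K : ℝ) * height x - (Module.finrank ℚ K : ℝ) * cond x⁻¹ := by
    have : Q273.MV.hh x - Q273.MV.sI ∅ (Q273.AD.al K 2) x =
      (Module.finrank ℚ K : ℝ) * cond x⁻¹ := e2
    rw [eh] at this
    linarith
  have key : ∀ A t : ℝ, A ≤ (t + ε) * height x ↔
      (1 - t - ε) * ((Module.finrank ℚ K : ℝ) * height x) ≤
        (Module.finrank ℚ K : ℝ) * height x - (Module.finrank ℚ K : ℝ) * A := by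
    intro A t
    rw [← mul_le_mul_iff_right₀ hd]
    constructor
    · intro h
      linarith
    · intro h
      linarith
  rw [key, key, key]
  constructor
  · rintro ⟨g0, g1, g2⟩ l
    rw [eh]
    fin_cases l
    · show (1 - θ 0 - ε) * _ ≤ Q273.MV.sI ∅ (Q273.AD.al K 0) x
      rw [k0]
      exact g0
    · show (1 - θ 1 - ε) * _ ≤ Q273.MV.sI ∅ (Q273.AD.al K 1) x
      rw [k1]
      exact g1
    · show (1 - θ 2 - ε) * _ ≤ Q273.MV.sI ∅ (Q273.AD.al K 2) x
      rw [k2]
      exact g2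
  · intro h
    have g0 := h 0
    have g1 := h 1
    have g2 := h 2
    rw [eh, k0] at g0
    rw [eh, k1] at g1
    rw [eh, k2] at g2
    exact ⟨g0, g1, g2⟩

open scoped Classical in
private lemma approximable_eq (τ : ℝ) (θ : Fin 3 → ℝ) :
    Approximable K τ θ = Q273.MV.WW ∅ (Q273.AD.al K) (τ / (Module.finrank ℚ K : ℝ))
      (fun i => 1 - θ i) := by
  have hd := hd (K := K)
  have hd1 := hd1 (K := K)
  ext ξ
  constructor
  · intro h ε hε B
    obtain ⟨x, h0, h1, h2, h3, h4⟩ := h ε hε (max B 0)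
    have hB0 : 0 ≤ height x := (le_max_right _ _).trans h2
    refine ⟨x, Q273.ADG.off_al h0 h1, ?_, h3.trans (Real.exp_le_exp.2 ?_),
      (loss_iff h0 h1 θ ε).1 h4⟩
    · rw [eh]
      have := (le_max_left B 0).trans h2
      nlinarith
    · rw [eh]
      have e : (τ / (Module.finrank ℚ K : ℝ) - ε) * ((Module.finrank ℚ K : ℝ) * height x) =
          (τ - (Module.finrank ℚ K : ℝ) * ε) * height x := by
        field_simp
      rw [e]
      have : ε * height x ≤ (Module.finrank ℚ K : ℝ) * ε * height x := by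
        have := mul_nonneg hε.le hB0
        nlinarith
      linarith
  · intro h ε hε B
    obtain ⟨x, h1, h2, h3, h4⟩ := h (ε / (Module.finrank ℚ K : ℝ)) (by positivity)
      ((Module.finrank ℚ K : ℝ) * max B 0)
    obtain ⟨x0, x1⟩ := Q273.ADG.of_off_al h1
    rw [eh] at h2
    have h2' := le_of_mul_le_mul_left h2 hd
    have hB0 : 0 ≤ height x := (le_max_right _ _).trans h2'
    refine ⟨x, x0, x1, (le_max_left _ _).trans h2', h3.trans (le_of_eq ?_),
      (loss_iff x0 x1 θ ε).2 fun l => ?_⟩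
    · congr 1
      rw [eh]
      field_simp
    · have h5 : ε / (Module.finrank ℚ K : ℝ) ≤ ε := div_le_self hε.le hd1
      refine (mul_le_mul_of_nonneg_right ?_ (Q273.MV.hh_nonneg x)).trans (h4 l)
      linarith

private lemma small_le {Y : Type} [MetricSpace Y] (φ : K → Y) {lam τ : ℝ} (h0 : 0 < lam)
    (h1 : lam ≤ 3) (hτ : 0 < τ) :
    dimH (SmallConductors φ lam τ) ≤
      ENNReal.ofReal (Q273.AD.FK lam / (τ / (Module.finrank ℚ K : ℝ))) := by
  have hd := hd (K := K)
  obtain ⟨E, hE1, hE2⟩ := Q273.Apx.approx_family (ι := ℕ) (Y := Y)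
    (fun N => Q273.AD.SmL K lam (N : ℝ)) (fun y : K => Height.mulHeight (Q273.MV.vec y))
    φ (s := Q273.AD.FK lam)
    (τ := τ / (Module.finrank ℚ K : ℝ)) (Q273.AD.FK_nonneg h0.le) (by positivity)
    (fun N ε hε => Q273.AD.countLam K lam N h0 h1 ε hε)
  refine (dimH_mono fun ξ hξ => ?_).trans hE1
  by_contra hcon
  obtain ⟨c, hc⟩ := hξ
  obtain ⟨N, hN⟩ := exists_nat_ge ((Module.finrank ℚ K : ℝ) * c)
  have hfin := hE2 ξ hcon N (Real.exp c)
  obtain ⟨B, hB⟩ := (hfin.image (fun y : K => height y)).bddAbove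
  obtain ⟨x, x0, x1, hBx, h2, h3⟩ := hc (B + 1)
  have hle : height x ≤ B := hB ⟨x, ⟨⟨x0, x1, ?_⟩, ?_⟩, rfl⟩
  · linarith
  · have e1 : Q273.AD.S3 x = (Module.finrank ℚ K : ℝ) * (cond x + cond x⁻¹ + cond (x - 1)) := rfl
    rw [e1, eh]
    have := mul_le_mul_of_nonneg_left h3 hd.le
    linarith
  · rw [Real.rpow_def_of_pos (lt_of_lt_of_le one_pos (Height.one_le_mulHeight _)),
      ← Real.exp_add]
    refine h2.trans (Real.exp_le_exp.2 (le_of_eq ?_))
    have e3 : Real.log (Height.mulHeight (Q273.MV.vec x)) = Q273.MV.hh x := rfl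
    rw [e3, eh]
    field_simp
    ring

open scoped Classical in
/-- **Hausdorff dimensions.** Let `K` be a number field of degree `d` and `τ > 0`.
(1) If `0 ≤ θ_i ≤ 1` and `∑ (1 - θ_i) ≤ 1`, then the set of the `ξ ∈ K ⊗ ℝ` with approximations `x` of
order `τ` for which `cond(x)`, `cond(x - 1)`, `cond(1/x)` are at most `(θ_0 + o(1)) h`, `(θ_1 + o(1)) h`,
`(θ_2 + o(1)) h` has Hausdorff dimension `d min (1, (2 - ∑ (1 - θ_i)) / τ)`.
(2) If `0 < lam ≤ 3`, then for every metric space `Y` and every map `φ : K → Y` (for instance an embedding in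
a completion) the set of the `ξ ∈ Y` with approximations `φ(x)` of order `τ` for which
`cond(x) + cond(1/x) + cond(x - 1) ≤ lam h(x) + c` for some `c` has Hausdorff dimension at most
`d F(lam) / τ`. -/
theorem result (K : Type) [Field K] [NumberField K] :
    (∀ (τ : ℝ) (θ : Fin 3 → ℝ), 0 < τ → (∀ i, 0 ≤ θ i ∧ θ i ≤ 1) → ∑ i, (1 - θ i) ≤ 1 →
      dimH (Approximable K τ θ) = ENNReal.ofReal
        ((Module.finrank ℚ K : ℝ) * min 1 ((2 - ∑ i, (1 - θ i)) / τ))) ∧
    ∀ (Y : Type) [MetricSpace Y] (φ : K → Y) (lam τ : ℝ), 0 < lam → lam ≤ 3 → 0 < τ →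
      dimH (SmallConductors φ lam τ) ≤ ENNReal.ofReal ((Module.finrank ℚ K : ℝ) * F lam / τ) := by
  have hd := hd (K := K)
  refine ⟨?_, ?_⟩
  · intro τ θ hτ hθ hκ
    set Δ : ℝ := ∑ i, (1 - θ i) with hΔ
    have htriv : ∀ S : Set (mixedSpace K), dimH S ≤ ENNReal.ofReal (Module.finrank ℚ K : ℝ) := by
      intro S
      refine (dimH_mono (Set.subset_univ S)).trans (le_of_eq ?_)
      rw [Real.dimH_univ_eq_finrank, mixedEmbedding.finrank K, ENNReal.ofReal_natCast]
    have hkey : ∀ τ : ℝ, 0 < τ → 2 - Δ ≤ τ →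
        dimH (Approximable K τ θ) =
          ENNReal.ofReal ((Module.finrank ℚ K : ℝ) * ((2 - Δ) / τ)) := by
      intro τ hτ hτ2
      have hτd : 0 < τ / (Module.finrank ℚ K : ℝ) := by positivity
      have e : (2 - Δ) / (τ / (Module.finrank ℚ K : ℝ)) =
          (Module.finrank ℚ K : ℝ) * ((2 - Δ) / τ) := by
        field_simp
      rw [approximable_eq, ← Q273.AD.AppM_eq, ← e]
      refine Q273.AD.dim_AppM hτd (fun i => (hθ i).1) (fun i => (hθ i).2) hκ ?_
      rw [div_mul_cancel₀ _ hd.ne']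
      exact hτ2
    rcases le_or_gt (2 - Δ) τ with h | h
    · rw [min_eq_right ((div_le_one hτ).2 h)]
      exact hkey τ hτ h
    · rw [min_eq_left ((one_le_div hτ).2 h.le), mul_one]
      refine le_antisymm (htriv _) ?_
      have h2 := hkey (2 - Δ) (hτ.trans h) le_rfl
      rw [div_self (hτ.trans h).ne', mul_one] at h2
      rw [← h2]
      refine dimH_mono fun ξ hξ => ?_
      intro ε hε B
      obtain ⟨x, h0, h1, h4, h5, h6⟩ := hξ ε hε (max B 0)
      have h7 : 0 ≤ height x := (le_max_right _ _).trans h4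
      refine ⟨x, h0, h1, (le_max_left _ _).trans h4, h5.trans (Real.exp_le_exp.2 ?_), h6⟩
      have h8 : (τ - ε) * height x ≤ (2 - Δ - ε) * height x :=
        mul_le_mul_of_nonneg_right (by linarith) h7
      linarith
  · intro Y _ φ lam τ h0 h1 hτ
    refine (small_le φ h0 h1 hτ).trans (le_of_eq ?_)
    rw [eF]
    congr 1
    field_simp

end Pool.Agent.Results.MP_f5a5f7_nt.HausdorffDimensions
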