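import Mathlib
import Pool.Agent.Withdrawn.MP_a793bb_nt_SmallDigitPoints
import Pool.Agent.Q103.SDV.Uniform

/-!
# The weak abc inequality with `κ = 1` and a gain, over all number fields, for the numbers composed of
numbers with small digits

Let `K` be a number field and `t` an integer of `K` all of whose conjugates are at least `T` in
absolute value (the base). The number `x ∈ K` is composed of numbers with small digits in the base `t`
if `(x : 1 - x : -1)` has coordinates `b k * ∏ i, F i (t) ^ e k i` with pairwise coprime numbers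
`F i (t)` with small digits, at most `D` in all, small `b k`, and exponents at most `T ^ δ`, and the
product of the `F i (t)` which occur with different exponents in the coordinates is squarefree.

We prove for these `x` the inequality
`h(x) + (1 - ε) log |N(t)| / [K : ℚ] ≤ cond(x) + cond(1/x) + cond(x - 1) + log δ_L - log δ_K`
over all finite extensions `L` of `K`, of whatever degree, where the conductors are those over `L` and
`δ` is the root discriminant. In particular the inequality of the weak abc conjecture holds with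
`κ = 1` for the number `x`, over `K` and over all `L` with `log δ_L ≤ log δ_K + (1 - ε) log T + 1`;
the constants depend neither on `K` nor on `L`.
-/

set_option autoImplicit false

namespace Pool.Agent.Results.MP_f5a5f7_nt.SmallDigitNumbers

open Polynomial NumberField IsDedekindDomain
open Pool.Agent.Results.MP_a793bb_nt.SmallDigitPoints (Small point unequal logN)

section Defs

variable {K : Type} [Field K] [NumberField K]

/-- The absolute logarithmic Weil height `h(x)`. -/
noncomputable def height (x : K) : ℝ :=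
  (1 / (Module.finrank ℚ K : ℝ)) *
    ((∑ w : InfinitePlace K, (w.mult : ℝ) * Real.log (max 1 (w x))) +
      ∑ᶠ v : HeightOneSpectrum (𝓞 K), Real.log (max 1 (FinitePlace.mk v x)))

/-- The conductor `cond(x)`: the sum of `log N(v) / [K : ℚ]` over the primes `v` at which `x` has a
positive valuation. -/
noncomputable def cond (x : K) : ℝ :=
  (1 / (Module.finrank ℚ K : ℝ)) *
    (∑ᶠ v : HeightOneSpectrum (𝓞 K),
      (if FinitePlace.mk v x < 1 then Real.log (Ideal.absNorm v.asIdeal : ℝ) else 0))

/-- The number `x` is composed of numbers with small digits in the base `t`: up to a common factor the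
numbers `x`, `1 - x`, `-1` are `b k * ∏ i, F i (t) ^ e k i` with the conditions `Small`, and the product
of the `F i (t)` whose exponents are not all equal (at least one) is squarefree. -/
def Composed (D : ℕ) (δ T : ℝ) (t : 𝓞 K) (x : K) : Prop :=
  ∃ (n : ℕ) (F : Fin n → (𝓞 K)[X]) (b : Fin 3 → 𝓞 K) (e : Fin 3 → Fin n → ℕ) (s : K),
    Small D δ T t F b e ∧ (unequal e).Nonempty ∧
    Squarefree (Ideal.span {∏ i ∈ unequal e, (F i).eval t}) ∧ s ≠ 0 ∧
    (point t F b e 0 : K) = s * x ∧ (point t F b e 1 : K) = s * (1 - x) ∧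
    (point t F b e 2 : K) = -s

variable (K) in
/-- The logarithm of the root discriminant: `log |d_K| / [K : ℚ]`. -/
noncomputable def logRootDisc : ℝ := Real.log |(discr K : ℝ)| / Module.finrank ℚ K

end Defs

section

open Pool.Agent.Q103.SDV Pool.Agent.W223.CV
open Pool.Agent.W223.VD (cnt)
open Pool.Agent.W337.AC.MOBC (cond_eq)

/-- the points `0`, `1`, `∞` -/
private def P3 : Fin 3 → ℤ × ℤ := ![(0, 1), (1, 1), (1, 0)]

private lemma lin0 {K : Type} [Field K] (x : K) : lin (P3 0) x = -x := by
  simp [lin, P3]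

private lemma lin1 {K : Type} [Field K] (x : K) : lin (P3 1) x = 1 - x := by
  simp [lin, P3]

private lemma lin2 {K : Type} [Field K] (x : K) : lin (P3 2) x = 1 := by
  simp [lin, P3]

variable {K : Type} [Field K] [NumberField K]

private lemma lin_ne (x : K) (h0 : x ≠ 0) (h1 : x ≠ 1) (j : Fin 3) : lin (P3 j) x ≠ 0 := by
  fin_cases j
  · show lin (P3 0) x ≠ 0
    rw [lin0]
    exact neg_ne_zero.mpr h0
  · show lin (P3 1) x ≠ 0
    rw [lin1]
    exact sub_ne_zero.mpr (Ne.symm h1)
  · show lin (P3 2) x ≠ 0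
    rw [lin2]
    exact one_ne_zero

private lemma near_fin (x : K) (h0 : x ≠ 0) (h1 : x ≠ 1) :
    {v : HeightOneSpectrum (𝓞 K) | ∃ j ∈ Finset.univ, Near (P3 j) x v}.Finite := by
  have h2 : {v : HeightOneSpectrum (𝓞 K) | ∃ j ∈ Finset.univ, Near (P3 j) x v} =
      ⋃ j, {v | Near (P3 j) x v} := by
    ext v; simp
  rw [h2]
  exact Set.finite_iUnion fun j => near_finite _ _ (lin_ne x h0 h1 j)

/-- the truncated counting function of `0`, `1`, `∞` is at most the sum of the conductors -/
private lemma cnt_le_cond (x : K) (h0 : x ≠ 0) (h1 : x ≠ 1) :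
    cnt ∅ P3 x ≤ Module.finrank ℚ K * (cond x + cond x⁻¹ + cond (x - 1)) := by
  have hv : ∀ z : K, z ≠ 0 → {v : HeightOneSpectrum (𝓞 K) | v.valuation K z < 1}.Finite :=
    fun z hz => Pool.Agent.W223.AC.val_finite (L := K) z hz
  have f0 := hv x h0
  have f1 := hv x⁻¹ (inv_ne_zero h0)
  have f2 := hv (x - 1) (sub_ne_zero.mpr h1)
  have c0 : (Module.finrank ℚ K : ℝ) * cond x =
      cc ∅ (fun v : HeightOneSpectrum (𝓞 K) => v.valuation K x < 1) := cond_eq x
  have c1 : (Module.finrank ℚ K : ℝ) * cond x⁻¹ =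
      cc ∅ (fun v : HeightOneSpectrum (𝓞 K) => v.valuation K x⁻¹ < 1) := cond_eq x⁻¹
  have c2 : (Module.finrank ℚ K : ℝ) * cond (x - 1) =
      cc ∅ (fun v : HeightOneSpectrum (𝓞 K) => v.valuation K (x - 1) < 1) := cond_eq (x - 1)
  rw [mul_add, mul_add, c0, c1, c2, Pool.Agent.W223.CV.cnt_eq]
  have h2 := cc_or ∅ f0 f1
  have h3 := cc_or ∅ (f0.union f1) f2
  have h4 : cc ∅ (fun v : HeightOneSpectrum (𝓞 K) => ∃ j ∈ Finset.univ, Near (P3 j) x v) ≤
      cc ∅ (fun v : HeightOneSpectrum (𝓞 K) => (v.valuation K x < 1 ∨ v.valuation K x⁻¹ < 1) ∨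
        v.valuation K (x - 1) < 1) := by
    refine cc_mono (le_refl _) ((f0.union f1).union f2) ?_
    rintro v - ⟨j, -, hj⟩
    unfold Near at hj
    have hx0 : 0 < v.valuation K x := zero_lt_iff.2 ((Valuation.ne_zero_iff _).2 h0)
    by_cases hx : 1 < v.valuation K x
    · left; right
      rw [map_inv₀]
      exact inv_lt_one_of_one_lt₀ hx
    · rw [not_lt] at hx
      rw [max_eq_right hx] at hj
      fin_cases j
      · left; left
        have : v.valuation K (lin (P3 0) x) < 1 := hj
        rwa [lin0, Valuation.map_neg] at this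
      · right
        have : v.valuation K (lin (P3 1) x) < 1 := hj
        rw [lin1, ← neg_sub, Valuation.map_neg] at this
        exact this
      · exfalso
        have : v.valuation K (lin (P3 2) x) < 1 := hj
        rw [lin2, map_one] at this
        exact lt_irrefl _ this
  have h5 : cc ∅ (fun v : HeightOneSpectrum (𝓞 K) => (v.valuation K x < 1 ∨ v.valuation K x⁻¹ < 1) ∨
        v.valuation K (x - 1) < 1) ≤
      cc ∅ (fun v : HeightOneSpectrum (𝓞 K) => v.valuation K x < 1 ∨ v.valuation K x⁻¹ < 1) +
        cc ∅ (fun v : HeightOneSpectrum (𝓞 K) => v.valuation K (x - 1) < 1) := h3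
  linarith

/-- the radical of the point is at most the truncated counting function of `0`, `1`, `∞` -/
private lemma rad_le_cnt (P : Fin 3 → 𝓞 K) (hP : ∀ k, P k ≠ 0) (hsum : P 0 + P 1 + P 2 = 0) (x : K)
    (h0 : x ≠ 0) (h1 : x ≠ 1) (hx : x * (P 2 : K) = -(P 0 : K)) :
    cc ∅ (Bad P) ≤ cnt ∅ P3 x := by
  rw [Pool.Agent.W223.CV.cnt_eq]
  refine cc_mono (le_refl _) (near_fin x h0 h1) ?_
  intro v _ hv
  have hx0 : 0 < v.valuation K x := zero_lt_iff.2 ((Valuation.ne_zero_iff _).2 h0)
  rcases bad_mob P hP hsum x hx v hv with h | h | h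
  · refine ⟨0, Finset.mem_univ _, ?_⟩
    unfold Near
    rw [lin0, Valuation.map_neg]
    exact lt_max_of_lt_right h
  · refine ⟨2, Finset.mem_univ _, ?_⟩
    unfold Near
    rw [lin2, map_one]
    apply lt_max_of_lt_left
    rw [map_inv₀] at h
    exact (inv_lt_one₀ hx0).1 h
  · refine ⟨1, Finset.mem_univ _, ?_⟩
    unfold Near
    rw [lin1, ← neg_sub, Valuation.map_neg]
    exact lt_max_of_lt_right h

private lemma rad_eq (P : Fin 3 → 𝓞 K) :
    Pool.Agent.Results.MP_a793bb_nt.SmallDigitPoints.rad P =
      cc ∅ (Bad P) / Module.finrank ℚ K := by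
  classical
  unfold Pool.Agent.Results.MP_a793bb_nt.SmallDigitPoints.rad cc
  congr 1
  rw [finsum_mem_def]
  refine finsum_congr fun v => ?_
  by_cases h : Bad P v
  · rw [ct_pos ⟨by simp, h⟩, Set.indicator_of_mem]
    exact h
  · rw [ct_neg fun h2 => h h2.2, Set.indicator_of_notMem]
    exact h

end

/-- **Main theorem.** For every `D` and `ε > 0` there are `δ > 0` and `T₀` such that for all `T ≥ T₀`,
all number fields `K` and all `x ∈ K` composed of numbers with small digits in a base `t ∈ 𝓞 K`:
`x ≠ 0, 1`, and over all finite extensions `L` of `K`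
`h(x) + (1 - ε) log |N(t)| / [K : ℚ] ≤ cond(x) + cond(1/x) + cond(x - 1) + log δ_L - log δ_K`. -/
theorem result (D : ℕ) (ε : ℝ) (hε : 0 < ε) : ∃ δ : ℝ, 0 < δ ∧ ∃ T₀ : ℝ, 1 ≤ T₀ ∧
    ∀ T : ℝ, T₀ ≤ T → ∀ (K : Type) [Field K] [NumberField K] (t : 𝓞 K) (x : K),
      Composed D δ T t x → x ≠ 0 ∧ x ≠ 1 ∧
      ∀ (L : Type) [Field L] [NumberField L] [Algebra K L],
        height (algebraMap K L x) + (1 - ε) * logN t ≤
          cond (algebraMap K L x) + cond (algebraMap K L x)⁻¹ + cond (algebraMap K L x - 1) +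
            (logRootDisc L - logRootDisc K) := by
  obtain ⟨δ, hδ, T₀, hT₀, h⟩ :=
    Pool.Agent.Results.MP_a793bb_nt.SmallDigitPoints.result D (min ε 1) (lt_min hε one_pos)
  refine ⟨δ, hδ, T₀, hT₀, ?_⟩
  intro T hT K _ _ t x hx
  obtain ⟨n, F, b, e, s, hS, hU, hsq, hs, e0, e1, e2⟩ := hx
  have hsum : point t F b e 0 + point t F b e 1 + point t F b e 2 = 0 := by
    have h1 : algebraMap (𝓞 K) K (point t F b e 0 + point t F b e 1 + point t F b e 2) =
        algebraMap (𝓞 K) K 0 := by
      rw [map_add, map_add, map_zero]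
      linear_combination e0 + e1 + e2
    exact IsFractionRing.injective (𝓞 K) K h1
  obtain ⟨-, h2⟩ := h T hT K n t F b e hS hsum hU
  have h3 := h2 hsq
  have hb2 : (point t F b e 2 : K) ≠ 0 := by
    rw [e2]
    exact neg_ne_zero.mpr hs
  have hval : ∀ i, i ∈ unequal e → (F i).eval t ≠ 0 := by
    intro i hi h4
    have h5 : ∏ i ∈ unequal e, (F i).eval t = 0 := Finset.prod_eq_zero hi h4
    rw [h5] at hsq
    have h6 : Squarefree (0 : Ideal (𝓞 K)) := by
      have : Ideal.span {(0 : 𝓞 K)} = (0 : Ideal (𝓞 K)) := by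
        rw [Ideal.zero_eq_bot, Ideal.span_singleton_eq_bot]
      rwa [this] at hsq
    exact not_squarefree_zero h6
  have hP : ∀ k, point t F b e k ≠ 0 := by
    intro k
    have h2' : point t F b e 2 ≠ 0 := RingOfIntegers.coe_ne_zero_iff.mp hb2
    unfold Pool.Agent.Results.MP_a793bb_nt.SmallDigitPoints.point at h2' ⊢
    refine mul_ne_zero (hS.ne_zero k) (Finset.prod_ne_zero_iff.mpr fun i _ => ?_)
    by_cases hi : i ∈ unequal e
    · exact pow_ne_zero _ (hval i hi)
    · have h4 : e 0 i = e 1 i ∧ e 1 i = e 2 i := by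
        unfold Pool.Agent.Results.MP_a793bb_nt.SmallDigitPoints.unequal at hi
        rw [Finset.mem_filter] at hi
        push Not at hi
        exact hi (Finset.mem_univ _)
      have h5 : e k i = e 2 i := by
        fin_cases k
        · exact h4.1.trans h4.2
        · exact h4.2
        · rfl
      rw [h5]
      exact Finset.prod_ne_zero_iff.mp (right_ne_zero_of_mul h2') i (Finset.mem_univ _)
  have hPK : ∀ k, (point t F b e k : K) ≠ 0 := fun k => RingOfIntegers.coe_ne_zero_iff.mpr (hP k)
  have hx0 : x ≠ 0 := by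
    rintro rfl
    rw [mul_zero] at e0
    exact hPK 0 e0
  have hx1 : x ≠ 1 := by
    rintro rfl
    rw [sub_self, mul_zero] at e1
    exact hPK 1 e1
  refine ⟨hx0, hx1, ?_⟩
  intro L _ _ _
  have hxL0 : algebraMap K L x ≠ 0 := (_root_.map_ne_zero _).2 hx0
  have hxL1 : algebraMap K L x ≠ 1 := by
    intro h4
    exact hx1 ((algebraMap K L).injective (h4.trans (map_one _).symm))
  have hm : x * (point t F b e 2 : K) = -(point t F b e 0 : K) := by
    rw [e0, e2]
    ring
  have hd0 : (0 : ℝ) < Module.finrank ℚ K := by exact_mod_cast Module.finrank_pos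
  have hLpos : (0 : ℝ) < Module.finrank ℚ L := by exact_mod_cast Module.finrank_pos
  have hKL : (0 : ℝ) < Module.finrank K L := by exact_mod_cast Module.finrank_pos
  have htow : (Module.finrank ℚ L : ℝ) = Module.finrank ℚ K * Module.finrank K L := by
    exact_mod_cast (Module.finrank_mul_finrank ℚ K L).symm
  -- heights
  have k1 := Pool.Agent.Q103.SDV.log_mob_le (point t F b e) hP x hm
  have k2 : Real.log (Height.mulHeight₁ (algebraMap K L x)) =
      Module.finrank K L * Real.log (Height.mulHeight₁ x) :=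
    Pool.Agent.W223.AC.MK.log_height_ext L x
  have k3 : Real.log (Height.mulHeight₁ (algebraMap K L x)) =
      Module.finrank ℚ L * height (algebraMap K L x) :=
    Pool.Agent.W223.AC.MK.height_eq (algebraMap K L x)
  have k4 : Height.logHeight₁ x = Real.log (Height.mulHeight₁ x) := rfl
  have k5 : height (algebraMap K L x) = Height.logHeight₁ x / Module.finrank ℚ K := by
    rw [k4, eq_div_iff hd0.ne']
    have k6 : Module.finrank K L * (height (algebraMap K L x) * Module.finrank ℚ K) =
        Module.finrank K L * Real.log (Height.mulHeight₁ x) := by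
      rw [← k2, k3, htow]
      ring
    exact mul_left_cancel₀ hKL.ne' k6
  have k7 : height (algebraMap K L x) ≤
      Pool.Agent.Results.MP_a793bb_nt.SmallDigitPoints.h (point t F b e) := by
    rw [k5]
    exact div_le_div_of_nonneg_right k1 hd0.le
  -- conductors
  have m1 := rad_le_cnt (point t F b e) hP hsum x hx0 hx1 hm
  have m2 := Pool.Agent.W469.CV.REL.t K L 3 ∅ P3 x (lin_ne x hx0 hx1)
  have m3 := cnt_le_cond (algebraMap K L x) hxL0 hxL1
  rw [rad_eq] at h3
  have m4 : Pool.Agent.W223.CV.cc ∅ (Pool.Agent.Q103.SDV.Bad (point t F b e)) /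
      Module.finrank ℚ K + logRootDisc K ≤ logRootDisc L +
      (cond (algebraMap K L x) + cond (algebraMap K L x)⁻¹ + cond (algebraMap K L x - 1)) := by
    unfold logRootDisc
    rw [← add_div, div_le_iff₀ hd0]
    have m5 : (Real.log |(discr L : ℝ)| / Module.finrank ℚ L +
        (cond (algebraMap K L x) + cond (algebraMap K L x)⁻¹ + cond (algebraMap K L x - 1))) *
          Module.finrank ℚ K * Module.finrank K L =
        Real.log |(discr L : ℝ)| + Module.finrank ℚ L *
        (cond (algebraMap K L x) + cond (algebraMap K L x)⁻¹ + cond (algebraMap K L x - 1)) := by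
      rw [mul_assoc, ← htow, add_mul, div_mul_cancel₀ _ hLpos.ne', mul_comm (Module.finrank ℚ L : ℝ)]
    have m6 : (Pool.Agent.W223.CV.cc ∅ (Pool.Agent.Q103.SDV.Bad (point t F b e)) +
        Real.log |(discr K : ℝ)|) * Module.finrank K L ≤
        (Real.log |(discr L : ℝ)| / Module.finrank ℚ L +
        (cond (algebraMap K L x) + cond (algebraMap K L x)⁻¹ + cond (algebraMap K L x - 1))) *
          Module.finrank ℚ K * Module.finrank K L := by
      rw [m5]
      have m7 := mul_le_mul_of_nonneg_left m1 hKL.le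
      nlinarith
    exact le_of_mul_le_mul_right m6 hKL
  have n1 : 0 ≤ logN t := by
    unfold Pool.Agent.Results.MP_a793bb_nt.SmallDigitPoints.logN
    refine div_nonneg ?_ hd0.le
    have ht0 : t ≠ 0 := by
      rintro rfl
      obtain ⟨σ⟩ : Nonempty (K →+* ℂ) := inferInstance
      have h1 := hS.base σ
      simp at h1
      linarith
    have h9 : (Algebra.norm ℤ t : ℤ) ≠ 0 := by
      rw [Ne, Algebra.norm_eq_zero_iff]
      exact ht0
    have h10 : (Algebra.norm ℚ (t : K) : ℚ) = ((Algebra.norm ℤ t : ℤ) : ℚ) :=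
      (Algebra.coe_norm_int t).symm
    rw [h10]
    refine Real.log_nonneg ?_
    have := Int.one_le_abs h9
    push_cast
    exact_mod_cast this
  have n2 : (1 - ε) * logN t ≤ (1 - min ε 1) * logN t :=
    mul_le_mul_of_nonneg_right (by linarith [min_le_left ε 1]) n1
  linarith

end Pool.Agent.Results.MP_f5a5f7_nt.SmallDigitNumbers
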