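import Pool.Agent.Q84.NX.Fam3
import Pool.Agent.Results.MP_f5a5f7_nt.FewExceptions

/-!
# The weak abc inequality over a number field for all numbers related to the primes of a string

Let `K` be a number field of degree `d`, `κ₁ > 1`, `c₀` real, `0 < A < max (7 κ₁ / 4) (37 / 20) / d`. There is `c > 0`,
for all `κ > 0` and `m` there is `c' > 0` and for every `Z` a number `D` with the following property. For every large `X`
there is a set `S` of at most `(log X) ^ (49 / 50)` primes, all larger than `Z`, such that for EVERY function `f` with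
values `1` and `-1` on the primes at least `X ^ (1 - κ)` integers `n`, `X < n ≤ 3X`, satisfy: the interval `[n, n + D]`
contains at least `m` primes, and for every prime `p` in it

* the Legendre symbol `(p / q)` is `f q` for all odd primes `q ≤ c' log X` outside `S`;
* `h(x) + c₀ < κ₁ (cond(x) + cond(1/x) + cond(x - 1))` for ALL `x` in `K`, `x ≠ 0, 1`, of height `H(x) ≤ p ^ A` such
  that some divisor `r` of the product of the norms of the primes `v` with `|x|_v ≠ 1` or `|x - 1|_v < 1` is within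
  `p ^ c` of a positive multiple of `p` (for instance: some such `v` divides `p`).

Method: the starting result `FewExceptions` counts the exceptional `x`; the divisor bound; few primes divide a number near
a divisor of an exceptional product (`Q84/NX/Core`, `Q84/NX/TriJ`); the Maynard-Tao theorem relative to a modulus which is
a small power of `X`, in the form that it avoids arbitrary exceptional sets of size `X ^ (1 - η)` (`Q84/MB/E1-E4`), gives
the strings.
-/

set_option autoImplicit false

open scoped Classical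

namespace Pool.Agent.Results.MP_f5a5f7_nt.StringsOfPrimes

open Finset Filter NumberField IsDedekindDomain
open Pool.Agent.Results.MP_f5a5f7_nt.FewExceptions (height exceptional)

variable {K : Type} [Field K] [NumberField K]

/-- the product of the norms of the primes `v` of `K` with `|x|_v < 1` -/
noncomputable def rad (x : K) : ℕ :=
  ∏ᶠ v : HeightOneSpectrum (𝓞 K), if FinitePlace.mk v x < 1 then Ideal.absNorm v.asIdeal else 1

/-- `h(x) + c₀ < κ (cond(x) + cond(1/x) + cond(x - 1))` for all `x ≠ 0, 1` in `K` with `H(x) ≤ p ^ A` for which the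
product of the norms of the primes dividing `x`, `1/x` and `x - 1` has a divisor `r` within `p ^ c` of a positive
multiple of `p` -/
def Fine (K : Type) [Field K] [NumberField K] (κ c₀ A c : ℝ) (p : ℕ) : Prop :=
  ∀ (x : K) (k r : ℕ), x ≠ 0 → x ≠ 1 → Real.exp (height x) ≤ (p : ℝ) ^ A → 1 ≤ k →
    |(r : ℝ) - k * p| ≤ (p : ℝ) ^ c → r ∣ rad x * rad x⁻¹ * rad (x - 1) →
    height x + c₀ < κ * (FewExceptions.cond x + FewExceptions.cond x⁻¹ + FewExceptions.cond (x - 1))

/-- only finitely many primes divide `x` -/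
theorem finite_places (x : K) (hx : x ≠ 0) :
    {v : HeightOneSpectrum (𝓞 K) | FinitePlace.mk v x < 1}.Finite := by
  have h1 := FinitePlace.hasFiniteMulSupport hx
  have h2 : (Function.mulSupport fun w : FinitePlace K => w x).Finite := h1
  refine (h2.preimage (f := fun v : HeightOneSpectrum (𝓞 K) => FinitePlace.mk v) ?_).subset ?_
  · intro v _ w _ h
    exact FinitePlace.mk_eq_iff.1 h
  · intro v hv
    rw [Set.mem_preimage, Function.mem_mulSupport]
    exact ne_of_lt hv

/-- the logarithm of the product of the norms -/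
theorem log_rad (x : K) (hx : x ≠ 0) :
    1 ≤ rad x ∧ Real.log (rad x) = (Module.finrank ℚ K : ℝ) * FewExceptions.cond x := by
  have hd : (0 : ℝ) < Module.finrank ℚ K := by exact_mod_cast Module.finrank_pos
  obtain ⟨T, hT⟩ : ∃ T, T = (finite_places x hx).toFinset := ⟨_, rfl⟩
  have hTm : ∀ v, v ∈ T ↔ FinitePlace.mk v x < 1 := by
    intro v
    rw [hT, Set.Finite.mem_toFinset]
    rfl
  have hpos : ∀ v : HeightOneSpectrum (𝓞 K),
      (if FinitePlace.mk v x < 1 then Ideal.absNorm v.asIdeal else 1) ≠ 0 := by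
    intro v
    split_ifs with h
    · rw [Ne, Ideal.absNorm_eq_zero_iff]
      exact v.ne_bot
    · exact one_ne_zero
  have h1 : rad x = ∏ v ∈ T, if FinitePlace.mk v x < 1 then Ideal.absNorm v.asIdeal else 1 := by
    unfold rad
    apply finprod_eq_prod_of_mulSupport_subset
    intro v hv
    rw [Function.mem_mulSupport] at hv
    rw [mem_coe, hTm]
    by_contra h
    exact hv (if_neg h)
  have h2 : FewExceptions.cond x = (1 / (Module.finrank ℚ K : ℝ)) *
      ∑ v ∈ T, (if FinitePlace.mk v x < 1 then Real.log (Ideal.absNorm v.asIdeal : ℝ) else 0) := by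
    unfold FewExceptions.cond
    congr 1
    apply finsum_eq_sum_of_support_subset
    intro v hv
    rw [Function.mem_support] at hv
    rw [mem_coe, hTm]
    by_contra h
    exact hv (if_neg h)
  constructor
  · rw [h1]
    exact Nat.one_le_iff_ne_zero.2 (prod_ne_zero_iff.2 fun v _ => hpos v)
  · rw [h1, h2, ← mul_assoc, mul_one_div_cancel hd.ne', one_mul, Nat.cast_prod, Real.log_prod]
    · apply sum_congr rfl
      intro v _
      split_ifs with h
      · rfl
      · simp
    · intro v _
      exact Nat.cast_ne_zero.2 (hpos v)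

/-- **Theorem.** -/
theorem result (K : Type) [Field K] [NumberField K] (κ₁ c₀ A : ℝ) (hκ₁ : 1 < κ₁) (hA : 0 < A)
    (hA1 : A < max (7 * κ₁ / 4) (37 / 20) / Module.finrank ℚ K) : ∃ c : ℝ, 0 < c ∧
    ∀ κ : ℝ, 0 < κ → ∀ m : ℕ, ∃ c' : ℝ, 0 < c' ∧
    ∀ Z : ℕ, ∃ D : ℕ, ∃ X₀ : ℝ, ∀ X : ℝ, X₀ ≤ X →
    ∃ S : Finset ℕ, (∀ q ∈ S, q.Prime ∧ Z < q) ∧ (S.card : ℝ) ≤ (Real.log X) ^ (49 / 50 : ℝ) ∧
    ∀ f : ℕ → ℤ, (∀ q, f q = 1 ∨ f q = -1) →
      X ^ (1 - κ) ≤ (((Icc 1 ⌊3 * X⌋₊).filter fun n : ℕ => X < n ∧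
        m ≤ ((Icc n (n + D)).filter Nat.Prime).card ∧
        ∀ p ∈ Icc n (n + D), p.Prime → Fine K κ₁ c₀ A c p ∧
          ∀ q : ℕ, q.Prime → q ≠ 2 → (q : ℝ) ≤ c' * Real.log X → q ∉ S → jacobiSym p q = f q).card : ℝ) := by
  have hd1 : 1 ≤ Module.finrank ℚ K := Module.finrank_pos
  have hd : (0 : ℝ) < Module.finrank ℚ K := by exact_mod_cast Module.finrank_pos
  obtain ⟨d, hdd⟩ : ∃ d, d = Module.finrank ℚ K := ⟨_, rfl⟩
  rw [← hdd] at hd1 hd hA1
  have hκ0 : 0 < κ₁ := by linarith
  obtain ⟨α, hα⟩ : ∃ α : ℝ, α = min (4 / (7 * κ₁)) (20 / 37) := ⟨_, rfl⟩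
  have hα0 : 0 < α := by rw [hα]; exact lt_min (by positivity) (by norm_num)
  have hαm : α * max (7 * κ₁ / 4) (37 / 20) = 1 := by
    rw [hα]
    rcases le_total (7 * κ₁ / 4) (37 / 20) with h | h
    · have h1 : (20 : ℝ) / 37 ≤ 4 / (7 * κ₁) := by
        rw [div_le_div_iff₀ (by norm_num) (by positivity)]
        linarith
      rw [max_eq_right h, min_eq_right h1]
      norm_num
    · have h1 : 4 / (7 * κ₁) ≤ (20 : ℝ) / 37 := by
        rw [div_le_div_iff₀ (by positivity) (by norm_num)]
        linarith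
      rw [max_eq_left h, min_eq_left h1]
      field_simp
  have hAα : A * (d * α) < 1 := by
    rw [lt_div_iff₀ hd] at hA1
    calc A * (d * α) = α * (A * d) := by ring
      _ < α * max (7 * κ₁ / 4) (37 / 20) := mul_lt_mul_of_pos_left hA1 hα0
      _ = 1 := hαm
  obtain ⟨ε, hε⟩ : ∃ ε, ε = (1 - A * (d * α)) / (2 * A) := ⟨_, rfl⟩
  have hε0 : 0 < ε := by rw [hε]; exact div_pos (by linarith) (by linarith)
  have hAε : A * (d * α + ε) < 1 := by
    have h1 : A * ε = (1 - A * (d * α)) / 2 := by
      rw [hε]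
      field_simp
    rw [mul_add, h1]
    linarith
  obtain ⟨C, hC⟩ := FewExceptions.result K κ₁ c₀ ε hκ₁ hε0
  rw [← hdd, ← hα] at hC
  obtain ⟨c, hc, hc4, hmain⟩ := Pool.Agent.Q84.NX.obj_strings (fun B : ℝ => exceptional K κ₁ c₀ B) (by
      intro B B' hBB x hx
      exact ⟨hx.1, hx.2.1, hx.2.2.1.trans hBB, hx.2.2.2⟩)
    (fun x : K => rad x * rad x⁻¹ * rad (x - 1)) (2 * d) (by omega) (max 1 (Real.exp |c₀|)) (by
      intro B hB x hx
      obtain ⟨hx0, hx1, hxB, hxc⟩ := hx
      have hB1 : 1 ≤ B := (le_max_left _ _).trans hB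
      have hBc : Real.exp |c₀| ≤ B := (le_max_right _ _).trans hB
      obtain ⟨h1, h2⟩ := log_rad x hx0
      obtain ⟨h3, h4⟩ := log_rad x⁻¹ (inv_ne_zero hx0)
      obtain ⟨h5, h6⟩ := log_rad (x - 1) (sub_ne_zero.2 hx1)
      rw [← hdd] at h2 h4 h6
      refine ⟨Nat.mul_pos (Nat.mul_pos h1 h3) h5, ?_⟩
      have h1' : (0 : ℝ) < rad x := by exact_mod_cast h1
      have h3' : (0 : ℝ) < rad x⁻¹ := by exact_mod_cast h3
      have h5' : (0 : ℝ) < rad (x - 1) := by exact_mod_cast h5
      have hlog : Real.log (rad x * rad x⁻¹ * rad (x - 1)) = d * (FewExceptions.cond x + FewExceptions.cond x⁻¹ + FewExceptions.cond (x - 1)) := by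
        rw [Real.log_mul (by positivity) h5'.ne', Real.log_mul h1'.ne' h3'.ne', h2, h4, h6]
        ring
      have hcond0 : 0 ≤ FewExceptions.cond x + FewExceptions.cond x⁻¹ + FewExceptions.cond (x - 1) := by
        have h7 : 0 ≤ d * (FewExceptions.cond x + FewExceptions.cond x⁻¹ + FewExceptions.cond (x - 1)) := by
          rw [← hlog]
          apply Real.log_nonneg
          have h8 : 1 ≤ rad x * rad x⁻¹ * rad (x - 1) := Nat.mul_pos (Nat.mul_pos h1 h3) h5
          exact_mod_cast h8
        exact nonneg_of_mul_nonneg_right h7 hd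
      have h7 : FewExceptions.cond x + FewExceptions.cond x⁻¹ + FewExceptions.cond (x - 1) ≤ height x + |c₀| := by
        calc FewExceptions.cond x + FewExceptions.cond x⁻¹ + FewExceptions.cond (x - 1) ≤ κ₁ * (FewExceptions.cond x + FewExceptions.cond x⁻¹ + FewExceptions.cond (x - 1)) :=
              le_mul_of_one_le_left hcond0 hκ₁.le
          _ ≤ height x + c₀ := hxc
          _ ≤ height x + |c₀| := by linarith [le_abs_self c₀]
      push_cast
      rw [← Real.exp_log (by positivity : (0 : ℝ) < rad x * rad x⁻¹ * rad (x - 1)), hlog]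
      calc Real.exp (d * (FewExceptions.cond x + FewExceptions.cond x⁻¹ + FewExceptions.cond (x - 1))) ≤ Real.exp (d * (height x + |c₀|)) :=
            Real.exp_le_exp.2 (mul_le_mul_of_nonneg_left h7 hd.le)
        _ = (Real.exp (height x) * Real.exp |c₀|) ^ d := by rw [← Real.exp_add, ← Real.exp_nat_mul]
        _ ≤ (B * B) ^ d := pow_le_pow_left₀ (by positivity) (mul_le_mul hxB hBc (by positivity) (by linarith)) d
        _ = B ^ (2 * d) := by rw [← pow_two, ← pow_mul])
    A (d * α + ε) C hA (by positivity) hAε hC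
  refine ⟨c, hc, ?_⟩
  have hF : ∀ p : ℕ, Pool.Agent.Q84.NX.NoDiv (fun B : ℝ => exceptional K κ₁ c₀ B)
      (fun x : K => rad x * rad x⁻¹ * rad (x - 1)) A c p ↔ Fine K κ₁ c₀ A c p := by
    intro p
    unfold Pool.Agent.Q84.NX.NoDiv Fine
    constructor
    · intro h x k r hx0 hx1 hxp hk hkr hr
      by_contra hcon
      push Not at hcon
      exact h x ⟨hx0, hx1, hxp, hcon⟩ k r hk hkr hr
    · intro h x hx k r hk hkr hr
      have h1 := h x k r hx.1 hx.2.1 hx.2.2.1 hk hkr hr
      exact absurd hx.2.2.2 (not_le.2 h1)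
  simp only [hF] at hmain
  exact hmain

end Pool.Agent.Results.MP_f5a5f7_nt.StringsOfPrimes
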